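import Pool.Agent.H798.BV.Stm3

/-!
# The variance of the `l_k` when `mean |l_k|^s ≤ 1`
-/

set_option autoImplicit false

namespace Pool.Agent.H348.BV

open Pool.Agent.H798.BV

theorem t_UC (h : S_BRL) : S_UC := by
  intro s hs1 hs2
  obtain ⟨c, hc, hb⟩ := h s hs1
  refine ⟨3 ^ (2 - s) * s / c, by positivity, ?_⟩
  intro m hm l hl
  set L : ℂ := (∑ k, l k) / m with hL
  have hm0 : (0 : ℝ) < m := by exact_mod_cast hm
  have hm1 : (1 : ℝ) ≤ m := by exact_mod_cast hm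
  have hmC : (m : ℂ) ≠ 0 := by exact_mod_cast hm0.ne'
  have hs0 : 0 < s := by linarith
  have hLm : (m : ℂ) * L = ∑ k, l k := by
    rw [hL]
    field_simp
  have hv0 : ∑ k, (l k - L) = 0 := by
    rw [Finset.sum_sub_distrib, Finset.sum_const, Finset.card_univ, Fintype.card_fin,
      nsmul_eq_mul, hLm, sub_self]
  have hre : ∀ w : ℂ, ∑ k, (w * (l k - L)).re = 0 := by
    intro w
    rw [← Complex.re_sum, ← Finset.mul_sum, hv0, mul_zero, Complex.zero_re]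
  -- the sum of the Bregman distances
  have hsum : c * ∑ k, (‖l k - L‖ ^ 2 * (‖L‖ + ‖l k - L‖) ^ (s - 2)) ≤
      m - m * ‖L‖ ^ s := by
    calc c * ∑ k, (‖l k - L‖ ^ 2 * (‖L‖ + ‖l k - L‖) ^ (s - 2))
        = ∑ k, c * (‖l k - L‖ ^ 2 * (‖L‖ + ‖l k - L‖) ^ (s - 2)) := by rw [Finset.mul_sum]
      _ ≤ ∑ k, (‖l k‖ ^ s - ‖L‖ ^ s - s * ((starRingEnd ℂ) (chi s L) * (l k - L)).re) := by
          apply Finset.sum_le_sum
          intro k _
          have := hb L (l k - L)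
          rwa [add_sub_cancel] at this
      _ = ∑ k, ‖l k‖ ^ s - m * ‖L‖ ^ s := by
          rw [Finset.sum_sub_distrib, Finset.sum_sub_distrib, ← Finset.mul_sum, hre, mul_zero,
            sub_zero, Finset.sum_const, Finset.card_univ, Fintype.card_fin, nsmul_eq_mul]
      _ ≤ m - m * ‖L‖ ^ s := by linarith
  have hnn : 0 ≤ c * ∑ k, (‖l k - L‖ ^ 2 * (‖L‖ + ‖l k - L‖) ^ (s - 2)) := by
    apply mul_nonneg hc.le
    apply Finset.sum_nonneg
    intro k _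
    positivity
  have hLs : ‖L‖ ^ s ≤ 1 := by
    have h1 : m * ‖L‖ ^ s ≤ m * 1 := by linarith
    exact le_of_mul_le_mul_left h1 hm0
  have hL1 : ‖L‖ ≤ 1 := by
    by_contra h0
    push Not at h0
    have := Real.one_lt_rpow h0 hs0
    linarith
  refine ⟨hL1, ?_⟩
  -- Bernoulli
  have hber : 1 - ‖L‖ ^ s ≤ s * (1 - ‖L‖) := by
    have h1 := one_add_mul_self_le_rpow_one_add (s := ‖L‖ - 1)
      (by linarith [norm_nonneg L]) (p := s) hs1.le
    rw [add_sub_cancel] at h1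
    linarith
  -- size
  set B : ℝ := (m : ℝ) ^ (1 / s) with hB
  have hB1 : 1 ≤ B := Real.one_le_rpow hm1 (by positivity)
  have hlk : ∀ k, ‖l k‖ ≤ B := by
    intro k
    have h1 : ‖l k‖ ^ s ≤ m := by
      refine le_trans ?_ hl
      exact Finset.single_le_sum (f := fun k => ‖l k‖ ^ s) (fun i _ => by positivity)
        (Finset.mem_univ k)
    have h2 := Real.rpow_le_rpow (by positivity) h1 (show 0 ≤ 1 / s by positivity)
    rwa [← Real.rpow_mul (norm_nonneg _), mul_one_div_cancel hs0.ne', Real.rpow_one] at h2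
  have hw : ∀ k, ‖l k - L‖ ^ 2 * (3 * B) ^ (s - 2) ≤
      ‖l k - L‖ ^ 2 * (‖L‖ + ‖l k - L‖) ^ (s - 2) := by
    intro k
    rcases eq_or_lt_of_le (norm_nonneg (l k - L)) with h0 | h0
    · rw [← h0]
      simp
    · apply mul_le_mul_of_nonneg_left _ (by positivity)
      apply Real.rpow_le_rpow_of_nonpos (by positivity) _ (by linarith)
      have h1 := norm_sub_le (l k) L
      linarith [hlk k]
  have hV : ∑ k, ‖l k - L‖ ^ 2 = ∑ k, ‖l k‖ ^ 2 - m * ‖L‖ ^ 2 := by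
    have h1 : ∀ k, ‖l k‖ ^ 2 = ‖L‖ ^ 2 + 2 * ((starRingEnd ℂ) L * (l k - L)).re +
        ‖l k - L‖ ^ 2 := by
      intro k
      rw [← Complex.normSq_eq_norm_sq, ← Complex.normSq_eq_norm_sq, ← Complex.normSq_eq_norm_sq,
        Complex.normSq_apply, Complex.normSq_apply, Complex.normSq_apply]
      simp only [Complex.mul_re, Complex.conj_re, Complex.conj_im, Complex.sub_re, Complex.sub_im]
      ring
    have h2 : ∑ k, ‖l k‖ ^ 2 = m * ‖L‖ ^ 2 + ∑ k, ‖l k - L‖ ^ 2 := by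
      rw [Finset.sum_congr rfl fun k _ => h1 k, Finset.sum_add_distrib, Finset.sum_add_distrib,
        ← Finset.mul_sum, hre, mul_zero, add_zero, Finset.sum_const, Finset.card_univ,
        Fintype.card_fin, nsmul_eq_mul]
    linarith
  have hfin : c * ((3 * B) ^ (s - 2) * ∑ k, ‖l k - L‖ ^ 2) ≤ m * (s * (1 - ‖L‖)) := by
    have h1 : (3 * B) ^ (s - 2) * ∑ k, ‖l k - L‖ ^ 2 ≤
        ∑ k, (‖l k - L‖ ^ 2 * (‖L‖ + ‖l k - L‖) ^ (s - 2)) := by
      rw [Finset.mul_sum]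
      apply Finset.sum_le_sum
      intro k _
      rw [mul_comm]
      exact hw k
    calc c * ((3 * B) ^ (s - 2) * ∑ k, ‖l k - L‖ ^ 2)
        ≤ c * ∑ k, (‖l k - L‖ ^ 2 * (‖L‖ + ‖l k - L‖) ^ (s - 2)) :=
          mul_le_mul_of_nonneg_left h1 hc.le
      _ ≤ m - m * ‖L‖ ^ s := hsum
      _ = m * (1 - ‖L‖ ^ s) := by ring
      _ ≤ m * (s * (1 - ‖L‖)) := mul_le_mul_of_nonneg_left hber hm0.le
  have hP : 0 < (3 * B) ^ (2 - s) := by positivity
  have hPP : (3 * B) ^ (s - 2) * (3 * B) ^ (2 - s) = 1 := by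
    rw [← Real.rpow_add (by positivity)]
    norm_num
  have hBe : (3 * B) ^ (2 - s) = 3 ^ (2 - s) * (m : ℝ) ^ ((2 - s) / s) := by
    rw [Real.mul_rpow (by norm_num) (by positivity), hB, ← Real.rpow_mul hm0.le]
    congr 2
    ring
  have h4 : c * ∑ k, ‖l k - L‖ ^ 2 ≤ m * (s * (1 - ‖L‖)) * (3 * B) ^ (2 - s) := by
    calc c * ∑ k, ‖l k - L‖ ^ 2
        = (c * ((3 * B) ^ (s - 2) * ∑ k, ‖l k - L‖ ^ 2)) * (3 * B) ^ (2 - s) := by
          linear_combination (-(c * ∑ k, ‖l k - L‖ ^ 2)) * hPP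
      _ ≤ m * (s * (1 - ‖L‖)) * (3 * B) ^ (2 - s) := mul_le_mul_of_nonneg_right hfin hP.le
  have h5 : (∑ k, ‖l k‖ ^ 2) / m - ‖L‖ ^ 2 = (∑ k, ‖l k - L‖ ^ 2) / m := by
    rw [hV]
    field_simp
  rw [h5, div_le_iff₀ hm0]
  have h6 : 3 ^ (2 - s) * s / c * (1 - ‖L‖) * (m : ℝ) ^ ((2 - s) / s) * m =
      (m * (s * (1 - ‖L‖)) * (3 * B) ^ (2 - s)) / c := by
    rw [hBe]
    field_simp
  rw [h6, le_div_iff₀ hc]
  linarith

end Pool.Agent.H348.BV
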